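import Pool.Agent.Helper36.LX.Sheet
open MeasureTheory Metric Set Filter Topology
open scoped ENNReal NNReal

/-!
# LX, row FIN: the final assembly
-/

namespace H11ST
namespace LX
namespace FinAsm

/-- `N d` is monotone -/
theorem N_mono {d : ℕ} {s t : ℝ} (hst : s ≤ t) : N d s ≤ N d t := by
  rw [N]
  refine iSup_le fun A => iSup_le fun S => iSup_le fun x => iSup_le fun r => iSup_le fun h => ?_
  refine le_N h ?_
  refine encard_le_encard ?_
  rintro y ⟨hy, hb⟩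
  exact ⟨ball_subset_ball (mul_le_mul_of_nonneg_right hst h.rpos.le) hy, hb⟩

/-- a minimal network exists -/
theorem exists_Mn (hPRJ : LX_PRJ) (hCMP : LX_CMP) {d n : ℕ} (p : Fin n → E d) (i0 : Fin n)
    (hn : 2 ≤ n) : ∃ t : LG.BT (Fin n) (E d), Mn p i0 t := by
  obtain ⟨t, hv, hm, hmin⟩ := hCMP d n p i0 hn
  refine ⟨t, hv, hm, fun t' ht' => ?_⟩
  obtain ⟨t'', hv'', hm'', hle⟩ := hPRJ d n p i0 t' ht'
  exact (hmin t'' hv'' hm'').trans hle

end FinAsm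

open FinAsm in
/-- the row `FIN` from the other rows -/
theorem fin (hCHN : LX_CHN) (hLOW : LX_LOW) (hPRJ : LX_PRJ) (hCMP : LX_CMP) (hADM : LX_ADM)
    (hCNT : LX_CNT) (hVAR : LX_VAR) (hTV : LX_TV) (hCOO : LX_COO) (hED : LX_ED) (hLFR : LX_LFR)
    (hLF : LX_LF) (hUP : LX_UP) (hSUM : LX_SUM) (hGV : LX_GV) : LX_FIN := by
  have he0 : 0 < e0 := by unfold e0; norm_num
  refine ⟨e0 ^ 2 / 2 / 16, by positivity, fun d hd t ht => ?_⟩
  set κ : ℝ := e0 ^ 2 / 2 with hκ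
  have hκ0 : 0 < κ := by rw [hκ]; positivity
  have hd0 : (0 : ℝ) ≤ d := Nat.cast_nonneg d
  set Y : ℝ := Real.exp (κ / 16 * d) with hY
  have hY1 : 1 ≤ Y := Real.one_le_exp (by positivity)
  have hY16 : Y ^ 16 = Real.exp (κ * d) := by
    rw [hY, ← Real.exp_nat_mul]
    congr 1
    push_cast
    ring
  by_cases hY2 : Y ≤ 2
  · have h2 : (2 : ℕ∞) ≤ N d t := two_le_N hd (by linarith)
    exact ⟨2, by exact_mod_cast hY2, h2⟩
  · push Not at hY2
    obtain ⟨n, p, hp, hn⟩ := hGV d (by omega)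
    rw [← hκ, ← hY16] at hn
    -- `Y ^ 16 / 2 ≤ n`
    have h2 : (2 : ℝ) ^ 15 ≤ Y ^ 15 := pow_le_pow_left₀ (by norm_num) hY2.le 15
    have h3 : Y * 2 ^ 15 ≤ Y ^ 16 := by
      calc Y * 2 ^ 15 ≤ Y * Y ^ 15 := mul_le_mul_of_nonneg_left h2 (by linarith)
        _ = Y ^ 16 := by ring
    have h4 : Y * 2 ^ 14 ≤ n := by
      have : Y * 2 ^ 15 / 2 = Y * 2 ^ 14 := by ring
      linarith
    have hn3' : (3 : ℝ) ≤ n := by nlinarith
    have hn3 : 3 ≤ n := by exact_mod_cast hn3'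
    have hpos : 0 < n := by omega
    set i0 : Fin n := ⟨0, hpos⟩ with hi0
    obtain ⟨T, hT⟩ := exists_Mn hPRJ hCMP p i0 (by omega)
    obtain ⟨hA, hL⟩ := hADM (hLOW hCHN) d n p i0 hd (by omega) hp.nrm T hT
    have hS := hSUM hVAR hTV hCOO hED (hLF hCOO hED hLFR) hUP d n p hp i0 hn3 T hT
    have hnin : 100 * Y ≤ nin T := by nlinarith
    refine ⟨⌊nin T⌋₊, ?_, ?_⟩
    · have h5 : nin T < ⌊nin T⌋₊ + 1 := Nat.lt_floor_add_one _
      linarith
    · refine le_trans ?_ (N_mono (d := d) ht)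
      refine hCNT d n p i0 hd (by omega) hp.nrm T hT hA hL _ ?_
      exact Nat.floor_le (by linarith)

end LX
end H11ST
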